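import Pool.Agent.Helper9.TW.St

/-!
# Project TW, module EDG: from `b` to the cofactor `e = (a b + 1) / q`
-/

set_option autoImplicit false

noncomputable section

namespace Pool.Agent.Helper30.TW

open Finset
open Pool.Agent.Helper9.TW

theorem div_facts (a : ℕ) (ha : 1 ≤ a) : ((a / 4 : ℕ) : ℝ) ≤ a / 4 ∧ ((a / 2 : ℕ) : ℝ) ≤ a / 2 ∧
    ((a : ℝ) - 1) / 2 ≤ ((a / 2 : ℕ) : ℝ) ∧ ((a / 4 : ℕ) : ℝ) ≤ ((a / 2 : ℕ) : ℝ) ∧
    (a : ℝ) * ((a / 2 : ℕ) : ℝ) + 1 ≤ (a : ℝ) ^ 2 := by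
  refine ⟨?_, ?_, ?_, ?_, ?_⟩
  · have h := Nat.div_mul_le_self a 4
    have : ((a / 4 : ℕ) : ℝ) * 4 ≤ a := by exact_mod_cast h
    linarith
  · have h := Nat.div_mul_le_self a 2
    have : ((a / 2 : ℕ) : ℝ) * 2 ≤ a := by exact_mod_cast h
    linarith
  · have h : a ≤ 2 * (a / 2) + 1 := by omega
    have : (a : ℝ) ≤ 2 * ((a / 2 : ℕ) : ℝ) + 1 := by exact_mod_cast h
    linarith
  · exact_mod_cast (by omega : a / 4 ≤ a / 2)
  · have h : a * (a / 2) + 1 ≤ a ^ 2 := by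
      rcases Nat.lt_or_ge a 2 with h2 | h2
      · have : a = 1 := by omega
        subst this
        norm_num
      · have h3 : a / 2 + 1 ≤ a := by omega
        calc a * (a / 2) + 1 ≤ a * (a / 2) + a := by omega
          _ = a * (a / 2 + 1) := by ring
          _ ≤ a * a := Nat.mul_le_mul_left _ h3
          _ = a ^ 2 := by ring
    exact_mod_cast h

/-- the comparison of the two sets -/
theorem edge_card (a d β : ℕ) (η P : ℝ) (ha : 1 ≤ a) (hβ : β < d) (hη : 0 < η)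
    (hη1 : η ≤ 1 / 10) (hP : 0 < P) (E₁ F : ℕ)
    (f1 : (E₁ : ℝ) * P ≤ (a : ℝ) * ((a / 4 : ℕ) : ℝ) + 1)
    (f2 : (a : ℝ) * ((a / 4 : ℕ) : ℝ) + 1 < ((E₁ : ℝ) + 1) * P)
    (f3 : (F : ℝ) * ((1 + η) ^ 2 * P) ≤ (a : ℝ) * ((a / 2 : ℕ) : ℝ) + 1)
    (f4 : (a : ℝ) * ((a / 2 : ℕ) : ℝ) + 1 < ((F : ℝ) + 1) * ((1 + η) ^ 2 * P))
    (q : ℕ) (hq1 : P < (q : ℝ)) (hq2 : (q : ℝ) ≤ (1 + η) ^ 2 * P) :
    |(cb a d β q : ℝ) -
      (((Ioc E₁ (max E₁ F)).filter
        (fun e : ℕ => ((a * d : ℕ) : ℤ) ∣ (q : ℤ) * e - (1 + a * β))).card : ℝ)| ≤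
      (((Bb a).filter (fun b : ℕ => ((b : ℝ) ≤ a / 4 + η * a + 2 ∨ (a : ℝ) / 2 - η * a - 2 ≤ b) ∧
        q ∣ a * b + 1)).card : ℝ) := by
  classical
  obtain ⟨g1, g2, g3, g4, g5⟩ := div_facts a ha
  have ha0 : (1 : ℝ) ≤ a := by exact_mod_cast ha
  have hq0 : (0 : ℝ) < q := hP.trans hq1
  have hqn : 0 < q := by exact_mod_cast hq0
  have hdn : 0 < d := by omega
  set Se := (Ioc E₁ (max E₁ F)).filter
    (fun e : ℕ => ((a * d : ℕ) : ℤ) ∣ (q : ℤ) * e - (1 + a * β)) with hSe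
  set Sb := (Bb a).filter (fun b => b % d = β ∧ q ∣ a * b + 1) with hSb
  set En := (Bb a).filter (fun b : ℕ =>
    ((b : ℝ) ≤ a / 4 + η * a + 2 ∨ (a : ℝ) / 2 - η * a - 2 ≤ b) ∧ q ∣ a * b + 1) with hEn
  have hcb : cb a d β q = Sb.card := rfl
  have key : ∀ e ∈ Se, a * ((q * e - 1) / a) + 1 = q * e ∧ (q * e - 1) / a ∈ Sb := by
    intro e he
    rw [hSe, mem_filter, mem_Ioc] at he
    obtain ⟨⟨he1, he2⟩, he3⟩ := he
    have he0 : 0 < e := by omega
    have hqe : 1 ≤ q * e := Nat.mul_pos hqn he0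
    have hE : E₁ < F ∧ e ≤ F := by
      rcases le_max_iff.1 he2 with h | h
      · omega
      · exact ⟨by omega, h⟩
    obtain ⟨k, hk⟩ := he3
    have hdiv : (a : ℤ) ∣ ((q * e - 1 : ℕ) : ℤ) := by
      refine ⟨β + d * k, ?_⟩
      rw [Nat.cast_sub hqe]
      push_cast at hk ⊢
      linarith
    have hdiv' : a ∣ q * e - 1 := by exact_mod_cast hdiv
    obtain ⟨b, hb⟩ := hdiv'
    have hb1 : (q * e - 1) / a = b := by rw [hb]; exact Nat.mul_div_cancel_left b (by omega)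
    have hb2 : a * b + 1 = q * e := by omega
    rw [hb1]
    refine ⟨hb2, ?_⟩
    have hb2' : (a : ℝ) * b + 1 = q * e := by exact_mod_cast hb2
    rw [hSb, mem_filter, Bb, mem_Ioc]
    have heR : (E₁ : ℝ) + 1 ≤ e := by exact_mod_cast he1
    have heF : (e : ℝ) ≤ F := by exact_mod_cast hE.2
    have he0R : (0 : ℝ) < e := by exact_mod_cast he0
    refine ⟨⟨?_, ?_⟩, ?_, ⟨e, hb2⟩⟩
    · by_contra hcon
      rw [not_lt] at hcon
      have hconR : (b : ℝ) ≤ ((a / 4 : ℕ) : ℝ) := by exact_mod_cast hcon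
      have h1 : (a : ℝ) * b ≤ a * ((a / 4 : ℕ) : ℝ) := by gcongr
      have h2 : ((E₁ : ℝ) + 1) * P ≤ e * q := by
        refine mul_le_mul heR hq1.le hP.le he0R.le
      linarith
    · by_contra hcon
      rw [not_le] at hcon
      have hcon' : a / 2 + 1 ≤ b := hcon
      have hconR : ((a / 2 : ℕ) : ℝ) + 1 ≤ (b : ℝ) := by exact_mod_cast hcon'
      have h1 : (a : ℝ) * (((a / 2 : ℕ) : ℝ) + 1) ≤ a * b := by gcongr
      have h2 : e * (q : ℝ) ≤ F * ((1 + η) ^ 2 * P) :=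
        mul_le_mul heF hq2 hq0.le (he0R.le.trans heF)
      linarith
    · have h1 : (b : ℤ) - β = d * k := by
        have h2 : (a : ℤ) * (b - β) = a * (d * k) := by
          have h3 : (a : ℤ) * b + 1 = q * e := by exact_mod_cast hb2
          push_cast at hk
          linarith
        exact mul_left_cancel₀ (by omega : (a : ℤ) ≠ 0) h2
      have h2 : β ≡ b [MOD d] := (Nat.modEq_iff_dvd).2 ⟨k, h1⟩
      have h3 : β % d = b % d := h2
      rw [← h3]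
      exact Nat.mod_eq_of_lt hβ
  have hinj : Set.InjOn (fun e : ℕ => (q * e - 1) / a) (Se : Set ℕ) := by
    intro e he e' he' hee
    rw [mem_coe] at he he'
    have h1 := (key e he).1
    have h2 := (key e' he').1
    have h3 : (q * e - 1) / a = (q * e' - 1) / a := hee
    rw [h3, h2] at h1
    exact Nat.eq_of_mul_eq_mul_left hqn h1.symm
  have hle : Se.card ≤ Sb.card :=
    card_le_card_of_injOn _ (fun e he => (key e he).2) hinj
  have hsub : Sb ⊆ Se.image (fun e : ℕ => (q * e - 1) / a) ∪ En := by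
    intro b hb
    rw [hSb, mem_filter] at hb
    obtain ⟨hbB, hbd, ⟨e, hbe⟩⟩ := hb
    have hbeR : (a : ℝ) * b + 1 = q * e := by exact_mod_cast hbe
    have hbeZ : (a : ℤ) * b + 1 = q * e := by exact_mod_cast hbe
    rw [mem_union]
    by_cases hcase : e ∈ Ioc E₁ (max E₁ F)
    · left
      rw [mem_image]
      refine ⟨e, ?_, ?_⟩
      · rw [hSe, mem_filter]
        refine ⟨hcase, ?_⟩
        have h2 : β ≡ b [MOD d] := by
          unfold Nat.ModEq
          rw [Nat.mod_eq_of_lt hβ, hbd]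
        obtain ⟨k, hk⟩ := (Nat.modEq_iff_dvd).1 h2
        refine ⟨k, ?_⟩
        push_cast
        have : (a : ℤ) * (b - β) = a * (d * k) := by rw [hk]
        linarith
      · show (q * e - 1) / a = b
        rw [← hbe, Nat.add_sub_cancel]
        exact Nat.mul_div_cancel_left b (by omega)
    · right
      rw [hEn, mem_filter]
      refine ⟨hbB, ?_, ⟨e, hbe⟩⟩
      rw [mem_Ioc, not_and_or, not_lt, not_le] at hcase
      have hb0 : (0 : ℝ) ≤ b := Nat.cast_nonneg _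
      rcases hcase with h | h
      · left
        have hR : (e : ℝ) ≤ E₁ := by exact_mod_cast h
        have h1 : (q : ℝ) * e ≤ (1 + η) ^ 2 * (a * ((a / 4 : ℕ) : ℝ) + 1) := by
          calc (q : ℝ) * e ≤ ((1 + η) ^ 2 * P) * E₁ :=
                mul_le_mul hq2 hR (Nat.cast_nonneg _) (by positivity)
            _ = (1 + η) ^ 2 * (E₁ * P) := by ring
            _ ≤ _ := by gcongr
        rw [← hbeR] at h1
        have h2 : (1 + η) ^ 2 ≤ 1 + 2.1 * η := by nlinarith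
        have h3 : (0 : ℝ) ≤ ((a / 4 : ℕ) : ℝ) := Nat.cast_nonneg _
        have h4 : (a : ℝ) * ((a / 4 : ℕ) : ℝ) + 1 ≤ a * (a / 4) + 1 := by gcongr
        have h5 : (1 + η) ^ 2 * ((a : ℝ) * ((a / 4 : ℕ) : ℝ) + 1) ≤
            (1 + 2.1 * η) * (a * (a / 4) + 1) := mul_le_mul h2 h4 (by positivity) (by linarith)
        have h6 : (a : ℝ) * b ≤ a * (a / 4 + η * a + 2) := by
          have h7 : 0 ≤ η * (a : ℝ) ^ 2 := by positivity
          nlinarith
        exact le_of_mul_le_mul_left h6 (by linarith)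
      · right
        rw [max_lt_iff] at h
        have hR : (F : ℝ) + 1 ≤ e := by
          have : F + 1 ≤ e := h.2
          exact_mod_cast this
        by_contra hcon
        rw [not_le] at hcon
        have h1 : (a : ℝ) * ((a / 2 : ℕ) : ℝ) + 1 < (1 + η) ^ 2 * (a * b + 1) := by
          calc (a : ℝ) * ((a / 2 : ℕ) : ℝ) + 1 < ((F : ℝ) + 1) * ((1 + η) ^ 2 * P) := f4
            _ ≤ e * ((1 + η) ^ 2 * q) := by
                refine mul_le_mul hR ?_ (by positivity) (Nat.cast_nonneg _)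
                exact mul_le_mul_of_nonneg_left hq1.le (by positivity)
            _ = (1 + η) ^ 2 * (q * e) := by ring
            _ = _ := by rw [← hbeR]
        have h2 : (a : ℝ) * b + 1 ≤ a * (a / 2 - η * a - 2) + 1 := by gcongr
        have h3 : (1 + η) ^ 2 * ((a : ℝ) * b + 1) ≤
            (1 + η) ^ 2 * (a * (a / 2 - η * a - 2) + 1) :=
          mul_le_mul_of_nonneg_left h2 (by positivity)
        have h4 : (1 + η) ^ 2 * ((a : ℝ) * (a / 2 - η * a - 2) + 1) =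
            (a : ℝ) ^ 2 * (1 / 2 - 3 / 2 * η ^ 2 - η ^ 3) - (1 + η) ^ 2 * (2 * a - 1) := by ring
        have h5 : (a : ℝ) ^ 2 * (1 / 2 - 3 / 2 * η ^ 2 - η ^ 3) ≤ a ^ 2 * (1 / 2) := by
          refine mul_le_mul_of_nonneg_left ?_ (by positivity)
          have : 0 < η ^ 2 := by positivity
          have : 0 < η ^ 3 := by positivity
          linarith
        have h6 : (1 : ℝ) * (2 * a - 1) ≤ (1 + η) ^ 2 * (2 * a - 1) := by
          refine mul_le_mul_of_nonneg_right ?_ (by linarith)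
          nlinarith
        have h7 : (a : ℝ) * ((a - 1) / 2) ≤ a * ((a / 2 : ℕ) : ℝ) := by gcongr
        nlinarith
  have hle2 : Sb.card ≤ Se.card + En.card := by
    refine (card_le_card hsub).trans ((card_union_le _ _).trans ?_)
    exact Nat.add_le_add_right card_image_le _
  rw [hcb, abs_le]
  have h1 : (Se.card : ℝ) ≤ Sb.card := by exact_mod_cast hle
  have h2 : (Sb.card : ℝ) ≤ Se.card + En.card := by exact_mod_cast hle2
  constructor
  · have : (0 : ℝ) ≤ En.card := Nat.cast_nonneg _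
    linarith
  · linarith

/-- the comparison of the expected values -/
theorem edge_mean (a d : ℕ) (η P : ℝ) (ha : 1 ≤ a) (hd : 1 ≤ d) (hη : 0 < η)
    (hη1 : η ≤ 1 / 10) (hP : 0 < P) (E₁ F : ℕ)
    (f1 : (E₁ : ℝ) * P ≤ (a : ℝ) * ((a / 4 : ℕ) : ℝ) + 1)
    (f2 : (a : ℝ) * ((a / 4 : ℕ) : ℝ) + 1 < ((E₁ : ℝ) + 1) * P)
    (f3 : (F : ℝ) * ((1 + η) ^ 2 * P) ≤ (a : ℝ) * ((a / 2 : ℕ) : ℝ) + 1)
    (f4 : (a : ℝ) * ((a / 2 : ℕ) : ℝ) + 1 < ((F : ℝ) + 1) * ((1 + η) ^ 2 * P))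
    (q : ℕ) (hq1 : P < (q : ℝ)) (hq2 : (q : ℝ) ≤ (1 + η) ^ 2 * P) :
    |(((max E₁ F : ℕ) : ℝ) - E₁) / ((a * d : ℕ) : ℝ) - ((Bb a).card : ℝ) / (d * q)| ≤
      2 / ((a * d : ℕ) : ℝ) + 10 * η * a / (d * q) := by
  obtain ⟨g1, g2, g3, g4, g5⟩ := div_facts a ha
  have ha0 : (1 : ℝ) ≤ a := by exact_mod_cast ha
  have hd0 : (1 : ℝ) ≤ d := by exact_mod_cast hd
  have hq0 : (0 : ℝ) < q := hP.trans hq1
  set M₁ : ℝ := (a : ℝ) * ((a / 4 : ℕ) : ℝ) + 1 with hM1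
  set M₂ : ℝ := (a : ℝ) * ((a / 2 : ℕ) : ℝ) + 1 with hM2
  have hM12 : M₁ ≤ M₂ := by rw [hM1, hM2]; gcongr
  have hM1p : 0 < M₁ := by positivity
  have hBb : (a : ℝ) * ((Bb a).card : ℝ) = M₂ - M₁ := by
    unfold Bb
    rw [Nat.card_Ioc, Nat.cast_sub (by omega)]
    ring
  set X : ℝ := ((max E₁ F : ℕ) : ℝ) - E₁ with hX
  have hlow : -(1 + 10 * η * a ^ 2 / q) ≤ X - (M₂ - M₁) / q := by
    have h1 : (F : ℝ) - E₁ ≤ X := by
      rw [hX]
      have : (F : ℝ) ≤ ((max E₁ F : ℕ) : ℝ) := by exact_mod_cast le_max_right E₁ F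
      linarith
    -- `(F + 1) (1 + η) ^ 2 q ≥ M₂`
    have h2 : M₂ * (1 - 2 * η) ≤ ((F : ℝ) + 1) * q := by
      have h3 : M₂ ≤ ((F : ℝ) + 1) * ((1 + η) ^ 2 * q) := by
        refine f4.le.trans ?_
        refine mul_le_mul_of_nonneg_left ?_ (by positivity)
        exact mul_le_mul_of_nonneg_left hq1.le (by positivity)
      have h4 : (1 + η) ^ 2 * (1 - 2 * η) ≤ 1 := by
        have : (1 + η) ^ 2 * (1 - 2 * η) = 1 - 3 * η ^ 2 - 2 * η ^ 3 := by ring
        rw [this]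
        have : 0 < η ^ 2 := by positivity
        have : 0 < η ^ 3 := by positivity
        linarith
      calc M₂ * (1 - 2 * η) ≤ (((F : ℝ) + 1) * ((1 + η) ^ 2 * q)) * (1 - 2 * η) :=
            mul_le_mul_of_nonneg_right h3 (by linarith)
        _ = (((F : ℝ) + 1) * q) * ((1 + η) ^ 2 * (1 - 2 * η)) := by ring
        _ ≤ (((F : ℝ) + 1) * q) * 1 := mul_le_mul_of_nonneg_left h4 (by positivity)
        _ = _ := by ring
    have h5 : (E₁ : ℝ) * q ≤ M₁ * (1 + 2.1 * η) := by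
      calc (E₁ : ℝ) * q ≤ E₁ * ((1 + η) ^ 2 * P) :=
            mul_le_mul_of_nonneg_left hq2 (Nat.cast_nonneg _)
        _ = (E₁ * P) * (1 + η) ^ 2 := by ring
        _ ≤ M₁ * (1 + 2.1 * η) := by
            refine mul_le_mul f1 ?_ (by positivity) hM1p.le
            nlinarith
    have h6 : X * q ≥ (F - E₁) * q := mul_le_mul_of_nonneg_right h1 hq0.le
    have h7 : (X - (M₂ - M₁) / q) * q = X * q - (M₂ - M₁) := by
      field_simp
    have h8 : -(1 + 10 * η * (a : ℝ) ^ 2 / q) * q = -(q + 10 * η * a ^ 2) := by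
      field_simp
    have h9 : -(1 + 10 * η * (a : ℝ) ^ 2 / q) * q ≤ (X - (M₂ - M₁) / q) * q := by
      rw [h7, h8]
      have h10 : M₁ * η ≤ a ^ 2 * η := by
        refine mul_le_mul_of_nonneg_right (hM12.trans g5) hη.le
      have h11 : M₂ * η ≤ a ^ 2 * η := by
        refine mul_le_mul_of_nonneg_right g5 hη.le
      have h12 : 0 ≤ (a : ℝ) ^ 2 * η := by positivity
      nlinarith
    exact le_of_mul_le_mul_right h9 hq0
  have hup : X - (M₂ - M₁) / q ≤ 1 := by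
    rcases le_total F E₁ with h | h
    · have h1 : X = 0 := by rw [hX, max_eq_left h, sub_self]
      rw [h1]
      have h2 : 0 ≤ (M₂ - M₁) / q := div_nonneg (by linarith) hq0.le
      linarith
    · have h1 : X = F - E₁ := by rw [hX, max_eq_right h]
      rw [h1]
      have h2 : (F : ℝ) * q ≤ M₂ := by
        refine le_trans ?_ f3
        exact mul_le_mul_of_nonneg_left hq2 (Nat.cast_nonneg _)
      have h3 : M₁ ≤ ((E₁ : ℝ) + 1) * q := by
        refine f2.le.trans ?_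
        exact mul_le_mul_of_nonneg_left hq1.le (by positivity)
      have h4 : ((F : ℝ) - E₁ - (M₂ - M₁) / q) * q ≤ 1 * q := by
        have h7 : ((F : ℝ) - E₁ - (M₂ - M₁) / q) * q = (F - E₁) * q - (M₂ - M₁) := by
          field_simp
        rw [h7]
        linarith
      exact le_of_mul_le_mul_right h4 hq0
  have hmain : |X - (M₂ - M₁) / q| ≤ 2 + 10 * η * a ^ 2 / q := by
    have h1 : 0 ≤ 10 * η * (a : ℝ) ^ 2 / q := by positivity
    rw [abs_le]
    constructor <;> linarith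
  have e1 : X / ((a * d : ℕ) : ℝ) - ((Bb a).card : ℝ) / (d * q) =
      (X - (M₂ - M₁) / q) / (a * d) := by
    rw [← hBb]
    push_cast
    have : (a : ℝ) ≠ 0 := by positivity
    have : (d : ℝ) ≠ 0 := by positivity
    field_simp
  have e2 : 2 / ((a * d : ℕ) : ℝ) + 10 * η * a / (d * q) =
      (2 + 10 * η * a ^ 2 / q) / (a * d) := by
    push_cast
    have : (a : ℝ) ≠ 0 := by positivity
    have : (d : ℝ) ≠ 0 := by positivity
    field_simp
  rw [e1, e2, abs_div, abs_of_pos (show (0 : ℝ) < a * d by positivity)]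
  gcongr

theorem hEDG : StEDG := by
  intro a d β η P ha hd hβ hη hη1 hP
  obtain ⟨g1, g2, g3, g4, g5⟩ := div_facts a ha
  have hη2 : (0 : ℝ) < (1 + η) ^ 2 * P := by positivity
  set M₁ : ℝ := (a : ℝ) * ((a / 4 : ℕ) : ℝ) + 1 with hM1
  set M₂ : ℝ := (a : ℝ) * ((a / 2 : ℕ) : ℝ) + 1 with hM2
  have hM1p : 0 < M₁ := by positivity
  have hM2p : 0 < M₂ := by positivity
  have f1 : (⌊M₁ / P⌋₊ : ℝ) * P ≤ M₁ := by
    rw [← le_div_iff₀ hP]
    exact Nat.floor_le (by positivity)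
  have f2 : M₁ < ((⌊M₁ / P⌋₊ : ℝ) + 1) * P := by
    rw [← div_lt_iff₀ hP]
    exact Nat.lt_floor_add_one _
  have f3 : (⌊M₂ / ((1 + η) ^ 2 * P)⌋₊ : ℝ) * ((1 + η) ^ 2 * P) ≤ M₂ := by
    rw [← le_div_iff₀ hη2]
    exact Nat.floor_le (by positivity)
  have f4 : M₂ < ((⌊M₂ / ((1 + η) ^ 2 * P)⌋₊ : ℝ) + 1) * ((1 + η) ^ 2 * P) := by
    rw [← div_lt_iff₀ hη2]
    exact Nat.lt_floor_add_one _
  refine ⟨⌊M₁ / P⌋₊, max ⌊M₁ / P⌋₊ ⌊M₂ / ((1 + η) ^ 2 * P)⌋₊, le_max_left _ _, ?_, ?_⟩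
  · rcases le_total ⌊M₂ / ((1 + η) ^ 2 * P)⌋₊ ⌊M₁ / P⌋₊ with h | h
    · rw [max_eq_left h, sub_self]
      positivity
    · rw [max_eq_right h, le_div_iff₀ hP]
      have h1 : (⌊M₂ / ((1 + η) ^ 2 * P)⌋₊ : ℝ) * P ≤
          (⌊M₂ / ((1 + η) ^ 2 * P)⌋₊ : ℝ) * ((1 + η) ^ 2 * P) := by
        refine mul_le_mul_of_nonneg_left ?_ (Nat.cast_nonneg _)
        have : 1 ≤ (1 + η) ^ 2 := by nlinarith
        nlinarith
      have h2 : (0 : ℝ) ≤ (⌊M₁ / P⌋₊ : ℝ) * P := by positivity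
      nlinarith
  · intro q hq1 hq2 _
    exact ⟨edge_card a d β η P ha hβ hη hη1 hP _ _ f1 f2 f3 f4 q hq1 hq2,
      edge_mean a d η P ha hd hη hη1 hP _ _ f1 f2 f3 f4 q hq1 hq2⟩

end Pool.Agent.Helper30.TW
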