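import Pool.Agent.Helper30.TW.M_INC

/-!
# Project TW, module FOU: finite Fourier expansion
-/

set_option autoImplicit false

noncomputable section

namespace Pool.Agent.Helper30.TW

open Finset
open Pool.Agent.Helper9.TW
open Pool.Agent.Helper15.AB (ee)
open Pool.Agent.Helper15.AB.hPQ (ee_add ee_int ee_norm ee_congr)
open Pool.Agent.Helper15.AB.hFJ (orth range_split)
open Pool.Agent.Helper15.AB.GA (gg nd gg_le')

theorem nd_ge (r h : ℕ) (hr : 1 ≤ r) (hh : 2 * h ≤ r) : (h : ℝ) / r ≤ nd (-((h : ℕ) : ℝ) / r) := by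
  have hr0 : (0 : ℝ) < r := by exact_mod_cast hr
  obtain ⟨w, hw⟩ : ∃ w : ℤ, round (-((h : ℕ) : ℝ) / r) = w := ⟨_, rfl⟩
  unfold nd
  rw [hw, neg_div]
  have h1 : (h : ℝ) / r ≤ 1 / 2 := by
    rw [div_le_div_iff₀ hr0 (by norm_num)]
    have : (2 : ℝ) * h ≤ r := by exact_mod_cast hh
    linarith
  rcases le_or_gt 0 w with h0 | h0
  · have : (0 : ℝ) ≤ w := by exact_mod_cast h0
    have h2 := neg_le_abs (-((h : ℝ) / r) - w)
    linarith
  · have : w ≤ -1 := by omega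
    have : (w : ℝ) ≤ -1 := by exact_mod_cast this
    have h2 := le_abs_self (-((h : ℝ) / r) - w)
    linarith

theorem G_bd (r E₁ E₂ h : ℕ) (hr : 1 ≤ r) (hE : E₁ ≤ E₂) (h1 : 1 ≤ h) (hh : 2 * h ≤ r) :
    ‖(1 / (r : ℂ)) * G r E₁ E₂ h‖ ≤ min (((E₂ : ℝ) - E₁) / r) (1 / (2 * h)) := by
  have hr0 : (0 : ℝ) < r := by exact_mod_cast hr
  have hh0 : (0 : ℝ) < h := by exact_mod_cast h1
  rw [norm_mul, norm_div, norm_one, Complex.norm_natCast]
  refine le_min ?_ ?_
  · have h2 := G_le r E₁ E₂ h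
    rw [Nat.cast_sub hE] at h2
    rw [one_div, inv_mul_eq_div]
    gcongr
  · rw [G_eq]
    have h3 := gg_le' (E₂ - E₁) (-((h : ℕ) : ℝ) / r)
    have h4 := nd_ge r h hr hh
    have h5 := norm_nonneg (gg (E₂ - E₁) (-((h : ℕ) : ℝ) / r))
    have h6 : ‖gg (E₂ - E₁) (-((h : ℕ) : ℝ) / r)‖ * (2 * ((h : ℝ) / r)) ≤ 1 :=
      (mul_le_mul_of_nonneg_left (by linarith) h5).trans h3
    rw [le_div_iff₀ (by positivity)]
    refine le_trans (le_of_eq ?_) h6
    field_simp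

theorem G_bd' (r E₁ E₂ h : ℕ) (hr : 1 ≤ r) (hE : E₁ ≤ E₂) (h1 : 1 ≤ h) (hh : 2 * h ≤ r) :
    ‖(1 / (r : ℂ)) * G r E₁ E₂ (r - h)‖ ≤ min (((E₂ : ℝ) - E₁) / r) (1 / (2 * h)) := by
  have hr0 : (0 : ℝ) < r := by exact_mod_cast hr
  refine le_trans (le_of_eq ?_) (G_bd r E₁ E₂ h hr hE h1 hh)
  rw [norm_mul, norm_mul]
  congr 1
  have e1 : G r E₁ E₂ (r - h) = (starRingEnd ℂ) (G r E₁ E₂ h) := by
    unfold G
    rw [map_sum]
    refine sum_congr rfl fun m _ => ?_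
    have e2 : ∀ x : ℝ, (starRingEnd ℂ) (ee x) = ee (-x) := by
      intro x
      unfold ee
      rw [← Complex.exp_conj]
      congr 1
      simp only [map_mul, Complex.conj_I, Complex.conj_ofReal, map_ofNat]
      push_cast
      ring
    rw [e2]
    have e3 : -(((((h : ℕ) : ℤ) * (-(m : ℤ)) : ℤ) : ℝ) / r) = ((((h : ℕ) : ℤ) * (m : ℤ) : ℤ) : ℝ) / r := by
      push_cast
      ring
    rw [e3]
    refine ee_congr r hr _ _ ⟨-(m : ℤ), ?_⟩
    rw [Nat.cast_sub (by omega)]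
    ring
  rw [e1, RCLike.norm_conj]

theorem fold (r : ℕ) (hr : 1 ≤ r) (F : ℕ → ℂ) :
    ∑ j ∈ Icc 1 (r - 1), F j =
      ∑ h ∈ Icc 1 (r / 2), (F h + if 2 * h = r then 0 else F (r - h)) := by
  rw [sum_add_distrib, ← sum_filter_add_sum_filter_not (Icc 1 (r - 1)) (fun j => 2 * j ≤ r)]
  congr 1
  · refine sum_congr ?_ fun _ _ => rfl
    ext j
    rw [mem_filter, mem_Icc, mem_Icc]
    omega
  · have h1 : ∀ h ∈ Icc 1 (r / 2), (if 2 * h = r then (0 : ℂ) else F (r - h)) =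
        if ¬ 2 * h = r then F (r - h) else 0 := by
      intro h _
      by_cases h2 : 2 * h = r
      · rw [if_pos h2, if_neg (not_not.2 h2)]
      · rw [if_neg h2, if_pos h2]
    rw [sum_congr rfl h1, ← sum_filter]
    refine sum_nbij' (fun j => r - j) (fun h => r - h) ?_ ?_ ?_ ?_ ?_
    · intro j hj; rw [mem_filter, mem_Icc] at hj ⊢; omega
    · intro j hj; rw [mem_filter, mem_Icc] at hj ⊢; omega
    · intro j hj; rw [mem_filter, mem_Icc] at hj; omega
    · intro j hj; rw [mem_filter, mem_Icc] at hj; omega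
    · intro j hj
      rw [mem_filter, mem_Icc] at hj
      congr 1
      omega

theorem hFOU : StFOU := by
  intro r E₁ E₂ hr hE
  have hr0 : (0 : ℝ) < r := by exact_mod_cast hr
  have hrC : (r : ℂ) ≠ 0 := by
    have : r ≠ 0 := by omega
    exact_mod_cast this
  refine ⟨fun h => (1 / (r : ℂ)) * G r E₁ E₂ h,
    fun h => if 2 * h = r then 0 else (1 / (r : ℂ)) * G r E₁ E₂ (r - h), ?_, ?_⟩
  · intro h hh
    rw [mem_Icc] at hh
    have h2 : 2 * h ≤ r := by omega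
    refine ⟨G_bd r E₁ E₂ h hr hE hh.1 h2, ?_⟩
    have h3 := G_bd' r E₁ E₂ h hr hE hh.1 h2
    by_cases h4 : 2 * h = r
    · simp only [h4, if_true, norm_zero]
      exact (norm_nonneg _).trans h3
    · simp only [h4, if_false]
      exact h3
  · intro v
    have key : (r : ℂ) * ((((Ioc E₁ E₂).filter (fun e : ℕ => (r : ℤ) ∣ (e : ℤ) - v)).card : ℕ) : ℂ) =
        ∑ j ∈ range r, G r E₁ E₂ j * ee ((((j : ℤ) * v : ℤ) : ℝ) / r) := by
      have h1 : ∀ e ∈ Ioc E₁ E₂, ∑ j ∈ range r, ee ((((j : ℤ) * (v - e) : ℤ) : ℝ) / r) =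
          if (r : ℤ) ∣ (e : ℤ) - v then (r : ℂ) else 0 := by
        intro e _
        rw [orth r hr]
        have h2 : ((r : ℤ) ∣ v - e) ↔ ((r : ℤ) ∣ (e : ℤ) - v) := by
          rw [← dvd_neg, neg_sub]
        simp only [h2]
      have h3 : ∑ e ∈ Ioc E₁ E₂, ∑ j ∈ range r, ee ((((j : ℤ) * (v - e) : ℤ) : ℝ) / r) =
          (r : ℂ) * ((((Ioc E₁ E₂).filter (fun e : ℕ => (r : ℤ) ∣ (e : ℤ) - v)).card : ℕ) : ℂ) := by
        rw [sum_congr rfl h1, ← sum_filter, sum_const, nsmul_eq_mul, mul_comm]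
      rw [← h3, sum_comm]
      refine sum_congr rfl fun j _ => ?_
      unfold G
      rw [sum_mul]
      refine sum_congr rfl fun e _ => ?_
      rw [← ee_add]
      congr 1
      push_cast
      ring
    rw [range_split r hr, fold r hr] at key
    have h0 : G r E₁ E₂ 0 * ee (((((0 : ℕ) : ℤ) * v : ℤ) : ℝ) / r) = ((E₂ : ℂ) - E₁) := by
      unfold G
      have h1 : ee 0 = 1 := by
        have := ee_int 0
        simpa using this
      simp [h1, Nat.cast_sub hE]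
    rw [h0] at key
    have h5 : ((((Ioc E₁ E₂).filter (fun e : ℕ => (r : ℤ) ∣ (e : ℤ) - v)).card : ℕ) : ℂ) =
        (1 / (r : ℂ)) * ((r : ℂ) *
          ((((Ioc E₁ E₂).filter (fun e : ℕ => (r : ℤ) ∣ (e : ℤ) - v)).card : ℕ) : ℂ)) := by
      field_simp
    rw [h5, key, mul_add, mul_sum]
    congr 1
    · push_cast
      field_simp
    · refine sum_congr rfl fun h hh => ?_
      rw [mem_Icc] at hh
      rw [mul_add, mul_assoc]
      congr 1
      by_cases h4 : 2 * h = r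
      · simp [h4]
      · simp only [h4, if_false]
        rw [mul_assoc]
        congr 2
        refine ee_congr r hr _ _ ⟨v, ?_⟩
        rw [Nat.cast_sub (by omega)]
        ring

end Pool.Agent.Helper30.TW
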