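import Pool.Agent.Helper9.TW.St
import Pool.Agent.Helper15.AB.M_PQ
import Pool.Agent.Helper15.AB.M_FJ

/-!
# Project TW, module INC: incomplete Kloosterman sums
-/

set_option autoImplicit false

noncomputable section

namespace Pool.Agent.Helper30.TW

open Finset
open Pool.Agent.Helper9.TW
open Pool.Agent.Helper15.AB (ee Kl StKB StDB)
open Pool.Agent.Helper15.AB.hPQ (ee_add ee_int ee_norm ee_congr le_tot_mul)
open Pool.Agent.Helper15.AB.hFJ (gg_bound harm_le orth range_split)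
open Pool.Agent.Helper15.AB.GA (gg)

/-- the linear sum -/
def G (r M₁ M₂ j : ℕ) : ℂ := ∑ m ∈ Ioc M₁ M₂, ee ((((j : ℤ) * (-(m : ℤ)) : ℤ) : ℝ) / r)

theorem G_le (r M₁ M₂ j : ℕ) : ‖G r M₁ M₂ j‖ ≤ ((M₂ - M₁ : ℕ) : ℝ) := by
  unfold G
  refine (norm_sum_le _ _).trans ?_
  simp [ee_norm]

theorem G_eq (r M₁ M₂ j : ℕ) : ‖G r M₁ M₂ j‖ = ‖gg (M₂ - M₁) (-((j : ℕ) : ℝ) / r)‖ := by
  have h1 : Ioc M₁ M₂ = (range (M₂ - M₁)).image (fun h => h + (M₁ + 1)) := by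
    ext m
    rw [mem_Ioc, mem_image]
    constructor
    · intro hm
      exact ⟨m - (M₁ + 1), by rw [mem_range]; omega, by omega⟩
    · rintro ⟨h, hh, rfl⟩
      rw [mem_range] at hh
      omega
  have h2 : G r M₁ M₂ j = ee (-(j : ℝ) / r * (M₁ + 1)) * gg (M₂ - M₁) (-((j : ℕ) : ℝ) / r) := by
    unfold G gg
    rw [h1, sum_image (by intro x _ y _ hxy; simpa using hxy), mul_sum]
    refine sum_congr rfl fun h _ => ?_
    rw [← ee_add]
    congr 1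
    push_cast
    ring
  rw [h2, norm_mul, ee_norm, one_mul]

theorem G_sum (r M₁ M₂ : ℕ) (hr : 1 ≤ r) (hM : M₂ ≤ M₁ + r) :
    ∑ j ∈ range r, ‖G r M₁ M₂ j‖ ≤ r * (2 + Real.log r) := by
  have hr0 : (0 : ℝ) < r := by exact_mod_cast hr
  rw [range_split r hr]
  have h0 : ‖G r M₁ M₂ 0‖ ≤ r := by
    refine (G_le r M₁ M₂ 0).trans ?_
    exact_mod_cast (by omega : M₂ - M₁ ≤ r)
  have h1 : ∀ j ∈ Icc 1 (r - 1), ‖G r M₁ M₂ j‖ ≤
      (r : ℝ) / 2 * (1 / (j : ℝ)) + (r : ℝ) / 2 * (1 / ((r : ℝ) - j)) := by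
    intro j hj
    rw [mem_Icc] at hj
    have hm : j % r = j := Nat.mod_eq_of_lt (by omega)
    rw [G_eq]
    have h2 := gg_bound (M₂ - M₁) r j hr (by omega)
    rw [hm] at h2
    refine h2.trans (le_of_eq ?_)
    ring
  have h3 : ∑ j ∈ Icc 1 (r - 1), (1 : ℝ) / ((r : ℝ) - j) = ∑ j ∈ Icc 1 (r - 1), (1 : ℝ) / j := by
    refine sum_nbij' (fun k => r - k) (fun k => r - k) ?_ ?_ ?_ ?_ ?_
    · intro k hk; rw [mem_Icc] at hk ⊢; omega
    · intro k hk; rw [mem_Icc] at hk ⊢; omega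
    · intro k hk; rw [mem_Icc] at hk; omega
    · intro k hk; rw [mem_Icc] at hk; omega
    · intro k hk
      rw [mem_Icc] at hk
      rw [Nat.cast_sub (by omega)]
  have h4 : ∑ j ∈ Icc 1 (r - 1), (1 : ℝ) / j ≤ 1 + Real.log r := by
    refine le_trans ?_ (harm_le r)
    refine sum_le_sum_of_subset_of_nonneg ?_ (fun _ _ _ => by positivity)
    exact Icc_subset_Icc le_rfl (by omega)
  have h5 : ∑ j ∈ Icc 1 (r - 1), ‖G r M₁ M₂ j‖ ≤ r * (1 + Real.log r) := by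
    refine (sum_le_sum h1).trans ?_
    rw [sum_add_distrib, ← mul_sum, ← mul_sum, h3]
    have : (r : ℝ) / 2 * ∑ j ∈ Icc 1 (r - 1), (1 : ℝ) / j ≤ r / 2 * (1 + Real.log r) :=
      mul_le_mul_of_nonneg_left h4 (by positivity)
    linarith
  linarith

theorem completion (r : ℕ) (k : ℤ) (M₁ M₂ : ℕ) (hr : 1 ≤ r) :
    (r : ℂ) * ∑ m ∈ (Ioc M₁ M₂).filter (fun m => Nat.Coprime m r),
      ee (((k * (iv r m : ℤ) : ℤ) : ℝ) / r) =
    ∑ j ∈ range r, G r M₁ M₂ j * Kl r j k := by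
  haveI : NeZero r := ⟨by omega⟩
  have h1 : ∀ m ∈ (Ioc M₁ M₂), (if Nat.Coprime m r then
      (r : ℂ) * ee (((k * (iv r m : ℤ) : ℤ) : ℝ) / r) else 0) =
      ∑ u ∈ (range r).filter (fun u => Nat.Coprime u r),
        (∑ j ∈ range r, ee ((((j : ℤ) * ((u : ℤ) - m) : ℤ) : ℝ) / r)) *
          ee (((k * (iv r u : ℤ) : ℤ) : ℝ) / r) := by
    intro m _
    have hmr : m % r < r := Nat.mod_lt _ hr
    have key : ∀ u ∈ (range r).filter (fun u => Nat.Coprime u r),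
        (∑ j ∈ range r, ee ((((j : ℤ) * ((u : ℤ) - m) : ℤ) : ℝ) / r)) *
          ee (((k * (iv r u : ℤ) : ℤ) : ℝ) / r) =
        if u = m % r then (r : ℂ) * ee (((k * (iv r m : ℤ) : ℤ) : ℝ) / r) else 0 := by
      intro u hu
      rw [mem_filter, mem_range] at hu
      rw [orth r hr]
      have hiff : ((r : ℤ) ∣ (u : ℤ) - m) ↔ u = m % r := by
        constructor
        · intro h
          have h2 : m ≡ u [MOD r] := (Nat.modEq_iff_dvd).2 h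
          have h3 : m % r = u % r := h2
          rw [Nat.mod_eq_of_lt hu.1] at h3
          exact h3.symm
        · rintro rfl
          exact (Nat.modEq_iff_dvd).1 (Nat.mod_modEq m r).symm
      by_cases h : u = m % r
      · rw [if_pos (hiff.2 h), if_pos h]
        have h2 : iv r u = iv r m := by
          unfold iv
          rw [h, ZMod.natCast_mod]
        rw [h2]
      · rw [if_neg (fun h' => h (hiff.1 h')), if_neg h, zero_mul]
    rw [sum_congr rfl key, sum_ite_eq' ]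
    by_cases hc : Nat.Coprime m r
    · have : m % r ∈ (range r).filter (fun u => Nat.Coprime u r) := by
        rw [mem_filter, mem_range]
        refine ⟨hmr, ?_⟩
        unfold Nat.Coprime at hc ⊢
        rw [← Nat.gcd_rec, Nat.gcd_comm]
        exact hc
      rw [if_pos hc, if_pos this]
    · have : ¬ m % r ∈ (range r).filter (fun u => Nat.Coprime u r) := by
        rw [mem_filter, mem_range]
        rintro ⟨_, h⟩
        apply hc
        unfold Nat.Coprime at h ⊢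
        rw [← Nat.gcd_rec, Nat.gcd_comm] at h
        exact h
      rw [if_neg hc, if_neg this]
  rw [mul_sum, sum_filter, sum_congr rfl h1, sum_comm]
  simp only [G, Kl, sum_mul, mul_sum]
  rw [sum_comm]
  have h2 : ∀ m ∈ Ioc M₁ M₂, ∀ u ∈ (range r).filter (fun u => Nat.Coprime u r), ∀ j ∈ range r,
      ee ((((j : ℤ) * ((u : ℤ) - m) : ℤ) : ℝ) / r) * ee (((k * (iv r u : ℤ) : ℤ) : ℝ) / r) =
      ee ((((j : ℤ) * (-(m : ℤ)) : ℤ) : ℝ) / r) *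
        ee (((j : ℤ) * u + k * (((u : ZMod r)⁻¹).val : ℤ) : ℤ) / (r : ℝ)) := by
    intro m _ u _ j _
    rw [← ee_add, ← ee_add]
    congr 1
    unfold iv
    push_cast
    ring
  rw [sum_congr rfl fun m hm => sum_congr rfl fun u hu => sum_congr rfl fun j hj => h2 m hm u hu j hj]
  rw [sum_congr rfl fun m _ => sum_comm, sum_comm]
  exact sum_congr rfl fun j _ => sum_comm

theorem Kl_le (hKB : StKB) (C ε : ℝ) (hC : 1 ≤ C)
    (hDB : ∀ n : ℕ, 1 ≤ n → (n.divisors.card : ℝ) ≤ C * (n : ℝ) ^ ε) (r : ℕ) (hr : 1 ≤ r)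
    (α β : ℤ) :
    ‖Kl r α β‖ ≤ (2 * C ^ 3) * (Int.gcd β r : ℝ) ^ (1 / 4 : ℝ) * (r : ℝ) ^ (3 / 4 + 3 / 4 * ε) := by
  have hr0 : (0 : ℝ) < r := by exact_mod_cast hr
  have h1 := hKB r α β hr
  set X := ‖Kl r α β‖ with hX
  have hX0 : 0 ≤ X := norm_nonneg _
  set τ := (r.divisors.card : ℝ) with hτ
  have hτ0 : 0 ≤ τ := Nat.cast_nonneg _
  have h2 : (r : ℝ) ≤ Nat.totient r * τ := by
    rw [hτ]
    exact_mod_cast le_tot_mul r
  have h3 := hDB r hr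
  rw [← hτ] at h3
  set g := (Int.gcd β r : ℝ) with hg
  have hg0 : 0 ≤ g := Nat.cast_nonneg _
  have hgg : (Int.gcd (Int.gcd α β) r : ℝ) ≤ g := by
    rw [hg]
    have h4 : Int.gcd (Int.gcd α β) r ∣ Int.gcd β r := by
      apply Int.dvd_gcd
      · exact (Int.gcd_dvd_left _ _).trans (Int.gcd_dvd_right _ _)
      · exact Int.gcd_dvd_right _ _
    have h5 : 0 < Int.gcd β r := Int.gcd_pos_of_ne_zero_right _ (by omega)
    exact_mod_cast Nat.le_of_dvd h5 h4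
  have h4 : X ^ 4 * r ≤ 2 * g * r ^ 4 * (C * (r : ℝ) ^ ε) ^ 3 := by
    calc X ^ 4 * r ≤ X ^ 4 * (Nat.totient r * τ) := mul_le_mul_of_nonneg_left h2 (by positivity)
      _ = (X ^ 4 * Nat.totient r) * τ := by ring
      _ ≤ (2 * (Int.gcd (Int.gcd α β) r : ℝ) * r ^ 4 * τ ^ 2) * τ :=
          mul_le_mul_of_nonneg_right h1 hτ0
      _ = 2 * (Int.gcd (Int.gcd α β) r : ℝ) * r ^ 4 * τ ^ 3 := by ring
      _ ≤ 2 * g * r ^ 4 * (C * (r : ℝ) ^ ε) ^ 3 := by gcongr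
  have e1 : ((r : ℝ) ^ ε) ^ 3 = (r : ℝ) ^ (3 * ε) := by
    rw [← Real.rpow_natCast, ← Real.rpow_mul hr0.le]
    congr 1
    push_cast
    ring
  have e2 : ((r : ℝ) ^ (3 / 4 + 3 / 4 * ε)) ^ 4 = (r : ℝ) ^ 3 * (r : ℝ) ^ (3 * ε) := by
    rw [← Real.rpow_natCast, ← Real.rpow_mul hr0.le, ← Real.rpow_natCast (r : ℝ) 3,
      ← Real.rpow_add hr0]
    congr 1
    push_cast
    ring
  have e3 : (g ^ (1 / 4 : ℝ)) ^ 4 = g := by
    rw [← Real.rpow_natCast, ← Real.rpow_mul hg0]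
    norm_num
  have hC1 : 1 ≤ 2 * C ^ 3 := by
    have : 1 ≤ C ^ 3 := one_le_pow₀ hC
    linarith
  have h5 : X ^ 4 ≤ ((2 * C ^ 3) * g ^ (1 / 4 : ℝ) * (r : ℝ) ^ (3 / 4 + 3 / 4 * ε)) ^ 4 := by
    have h6 : X ^ 4 * r ≤ ((2 * C ^ 3) * g ^ (1 / 4 : ℝ) * (r : ℝ) ^ (3 / 4 + 3 / 4 * ε)) ^ 4 * r := by
      calc X ^ 4 * r ≤ 2 * g * r ^ 4 * (C * (r : ℝ) ^ ε) ^ 3 := h4
        _ = (2 * C ^ 3) ^ 1 * (g * ((r : ℝ) ^ 3 * (r : ℝ) ^ (3 * ε)) * r) := by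
            rw [mul_pow, e1]; ring
        _ ≤ (2 * C ^ 3) ^ 4 * (g * ((r : ℝ) ^ 3 * (r : ℝ) ^ (3 * ε)) * r) := by
            have : (2 * C ^ 3) ^ 1 ≤ (2 * C ^ 3) ^ 4 :=
              pow_le_pow_right₀ hC1 (by norm_num)
            gcongr
        _ = (2 * C ^ 3) ^ 4 * ((g ^ (1 / 4 : ℝ)) ^ 4 *
              ((r : ℝ) ^ (3 / 4 + 3 / 4 * ε)) ^ 4 * r) := by rw [e2, e3]
        _ = _ := by
            rw [mul_pow (2 * C ^ 3 * g ^ (1 / 4 : ℝ)), mul_pow (2 * C ^ 3) (g ^ (1 / 4 : ℝ))]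
            ring
    exact le_of_mul_le_mul_right h6 hr0
  exact le_of_pow_le_pow_left₀ (by norm_num) (by positivity) h5

theorem hINC (hKB : StKB) (hDB : StDB) : StINC := by
  intro ε hε
  obtain ⟨C, hC1, hC⟩ := hDB (ε / 2) (by linarith)
  have hC0 : 0 < C := by linarith
  refine ⟨2 * C ^ 3 * (2 + 2 / ε), by positivity, ?_⟩
  intro r k M₁ M₂ hr hM
  have hr0 : (0 : ℝ) < r := by exact_mod_cast hr
  have hr1 : (1 : ℝ) ≤ r := by exact_mod_cast hr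
  have hcomp := completion r k M₁ M₂ hr
  set S := ∑ m ∈ (Ioc M₁ M₂).filter (fun m => Nat.Coprime m r),
      ee (((k * (iv r m : ℤ) : ℤ) : ℝ) / r) with hS
  set g := (Int.gcd k r : ℝ) ^ (1 / 4 : ℝ) with hg
  have hg0 : 0 ≤ g := by positivity
  have h1 : (r : ℝ) * ‖S‖ ≤ (2 * C ^ 3) * g * (r : ℝ) ^ (3 / 4 + 3 / 4 * (ε / 2)) *
      (r * (2 + Real.log r)) := by
    have e1 : (r : ℝ) * ‖S‖ = ‖(r : ℂ) * S‖ := by
      rw [norm_mul, Complex.norm_natCast]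
    rw [e1, hcomp]
    refine (norm_sum_le _ _).trans ?_
    calc ∑ j ∈ range r, ‖G r M₁ M₂ j * Kl r j k‖
        ≤ ∑ j ∈ range r, ‖G r M₁ M₂ j‖ *
          ((2 * C ^ 3) * g * (r : ℝ) ^ (3 / 4 + 3 / 4 * (ε / 2))) := by
          refine sum_le_sum fun j _ => ?_
          rw [norm_mul]
          exact mul_le_mul_of_nonneg_left (Kl_le hKB C (ε / 2) hC1 hC r hr j k) (norm_nonneg _)
      _ = ((2 * C ^ 3) * g * (r : ℝ) ^ (3 / 4 + 3 / 4 * (ε / 2))) *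
          ∑ j ∈ range r, ‖G r M₁ M₂ j‖ := by
          rw [← sum_mul, mul_comm]
      _ ≤ _ := mul_le_mul_of_nonneg_left (G_sum r M₁ M₂ hr hM) (by positivity)
  have h2 : ‖S‖ ≤ (2 * C ^ 3) * g * (r : ℝ) ^ (3 / 4 + 3 / 4 * (ε / 2)) * (2 + Real.log r) := by
    have h3 : (r : ℝ) * ‖S‖ ≤ r * ((2 * C ^ 3) * g * (r : ℝ) ^ (3 / 4 + 3 / 4 * (ε / 2)) *
        (2 + Real.log r)) := by
      refine h1.trans (le_of_eq ?_)
      ring
    exact le_of_mul_le_mul_left h3 hr0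
  have h3 : 2 + Real.log r ≤ (2 + 2 / ε) * (r : ℝ) ^ (ε / 2) := by
    have h4 := Real.log_le_rpow_div hr0.le (show 0 < ε / 2 by linarith)
    have h5 : (1 : ℝ) ≤ (r : ℝ) ^ (ε / 2) := Real.one_le_rpow hr1 (by linarith)
    have h6 : (r : ℝ) ^ (ε / 2) / (ε / 2) = 2 / ε * (r : ℝ) ^ (ε / 2) := by
      field_simp
    rw [h6] at h4
    nlinarith
  have h7 : (r : ℝ) ^ (3 / 4 + 3 / 4 * (ε / 2)) * (r : ℝ) ^ (ε / 2) ≤ (r : ℝ) ^ (3 / 4 + ε) := by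
    rw [← Real.rpow_add hr0]
    exact Real.rpow_le_rpow_of_exponent_le hr1 (by linarith)
  calc ‖S‖ ≤ (2 * C ^ 3) * g * (r : ℝ) ^ (3 / 4 + 3 / 4 * (ε / 2)) * (2 + Real.log r) := h2
    _ ≤ (2 * C ^ 3) * g * (r : ℝ) ^ (3 / 4 + 3 / 4 * (ε / 2)) *
        ((2 + 2 / ε) * (r : ℝ) ^ (ε / 2)) := mul_le_mul_of_nonneg_left h3 (by positivity)
    _ = 2 * C ^ 3 * (2 + 2 / ε) * ((r : ℝ) ^ (3 / 4 + 3 / 4 * (ε / 2)) * (r : ℝ) ^ (ε / 2)) * g := by
        ring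
    _ ≤ 2 * C ^ 3 * (2 + 2 / ε) * (r : ℝ) ^ (3 / 4 + ε) * g := by
        gcongr

end Pool.Agent.Helper30.TW
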