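import Pool.Agent.Helper9.TW.St

/-!
# Project TW, module QD: quadruples with a divisibility condition
-/

set_option autoImplicit false

noncomputable section

namespace Pool.Agent.Helper30.TW

open Finset
open Pool.Agent.Helper9.TW

theorem class_card (L g x : ℕ) :
    ((Icc 1 L).filter (fun y : ℕ => (g : ℤ) ∣ (x : ℤ) - y)).card ≤ L / g + 1 := by
  have h1 : ((Icc 1 L).filter (fun y : ℕ => (g : ℤ) ∣ (x : ℤ) - y)).card ≤
      (range (L / g + 1)).card := by
    refine card_le_card_of_injOn (fun y => y / g) ?_ ?_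
    · intro y hy
      rw [mem_coe, mem_filter, mem_Icc] at hy
      rw [mem_coe, mem_range]
      exact Nat.lt_succ_of_le (Nat.div_le_div_right hy.1.2)
    · intro y hy z hz hyz
      rw [mem_coe, mem_filter] at hy hz
      have h2 : (g : ℤ) ∣ (y : ℤ) - z := by
        have := dvd_sub hz.2 hy.2
        have e : (x : ℤ) - z - (x - y) = y - z := by ring
        rwa [e] at this
      have h3 : z % g = y % g := (Nat.modEq_iff_dvd).2 h2
      have h4 : y / g = z / g := hyz
      rw [← Nat.div_add_mod y g, ← Nat.div_add_mod z g, h4, h3]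
  rwa [card_range] at h1

theorem hQD : StQD := by
  intro H N g T hg hT
  classical
  set Q := ((Icc 1 H ×ˢ Icc 1 N) ×ˢ (Icc 1 H ×ˢ Icc 1 N)).filter (fun v : (ℕ × ℕ) × (ℕ × ℕ) =>
      (g : ℤ) ∣ (v.1.1 : ℤ) * v.2.2 - v.2.1 * v.1.2) with hQ
  let f : (ℕ × ℕ) × (ℕ × ℕ) → ℕ × ℕ := fun v => (v.1.1 * v.2.2, v.2.1 * v.1.2)
  set P := ((Icc 1 (H * N)) ×ˢ (Icc 1 (H * N))).filter
    (fun w : ℕ × ℕ => (g : ℤ) ∣ (w.1 : ℤ) - w.2) with hPd
  have hmap : ∀ v ∈ Q, f v ∈ P := by
    intro v hv
    rw [hQ, mem_filter, mem_product, mem_product, mem_product, mem_Icc, mem_Icc, mem_Icc,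
      mem_Icc] at hv
    obtain ⟨⟨⟨⟨a1, a2⟩, ⟨a3, a4⟩⟩, ⟨⟨a5, a6⟩, ⟨a7, a8⟩⟩⟩, hd⟩ := hv
    rw [hPd, mem_filter, mem_product, mem_Icc, mem_Icc]
    refine ⟨⟨⟨?_, ?_⟩, ⟨?_, ?_⟩⟩, ?_⟩
    · exact Nat.mul_pos a1 a7
    · exact Nat.mul_le_mul a2 a8
    · exact Nat.mul_pos a5 a3
    · exact Nat.mul_le_mul a6 a4
    · simpa [f] using hd
  have hfib : ∀ w ∈ P, ((Q.filter (fun v => f v = w)).card : ℝ) ≤ T ^ 2 := by
    intro w hw
    rw [hPd, mem_filter, mem_product, mem_Icc, mem_Icc] at hw
    obtain ⟨⟨⟨w1, w2⟩, ⟨w3, w4⟩⟩, _⟩ := hw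
    have h1 : (Q.filter (fun v => f v = w)).card ≤ (w.1.divisors ×ˢ w.2.divisors).card := by
      refine card_le_card_of_injOn (fun v => (v.1.1, v.2.1)) ?_ ?_
      · intro v hv
        rw [mem_coe, mem_filter] at hv
        rw [mem_coe, mem_product, Nat.mem_divisors, Nat.mem_divisors]
        have e : f v = w := hv.2
        have e1 : v.1.1 * v.2.2 = w.1 := congrArg Prod.fst e
        have e2 : v.2.1 * v.1.2 = w.2 := congrArg Prod.snd e
        exact ⟨⟨⟨v.2.2, e1.symm⟩, by omega⟩, ⟨⟨v.1.2, e2.symm⟩, by omega⟩⟩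
      · intro v hv u hu hvu
        rw [mem_coe, mem_filter] at hv hu
        have e : f v = w := hv.2
        have e1 : v.1.1 * v.2.2 = w.1 := congrArg Prod.fst e
        have e2 : v.2.1 * v.1.2 = w.2 := congrArg Prod.snd e
        have e' : f u = w := hu.2
        have e1' : u.1.1 * u.2.2 = w.1 := congrArg Prod.fst e'
        have e2' : u.2.1 * u.1.2 = w.2 := congrArg Prod.snd e'
        have hvu' : (v.1.1, v.2.1) = (u.1.1, u.2.1) := hvu
        rw [Prod.mk.injEq] at hvu'
        obtain ⟨c1, c2⟩ := hvu'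
        have p1 : 0 < u.1.1 := by
          rcases Nat.eq_zero_or_pos u.1.1 with h | h
          · rw [h, zero_mul] at e1'; omega
          · exact h
        have p2 : 0 < u.2.1 := by
          rcases Nat.eq_zero_or_pos u.2.1 with h | h
          · rw [h, zero_mul] at e2'; omega
          · exact h
        have c3 : v.2.2 = u.2.2 := by
          rw [← e1', c1] at e1
          exact Nat.eq_of_mul_eq_mul_left p1 e1
        have c4 : v.1.2 = u.1.2 := by
          rw [← e2', c2] at e2
          exact Nat.eq_of_mul_eq_mul_left p2 e2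
        exact Prod.ext (Prod.ext c1 c4) (Prod.ext c2 c3)
    rw [card_product] at h1
    have h2 := hT w.1 w1 w2
    have h3 := hT w.2 w3 w4
    calc ((Q.filter (fun v => f v = w)).card : ℝ)
        ≤ ((w.1.divisors.card * w.2.divisors.card : ℕ) : ℝ) := by exact_mod_cast h1
      _ = (w.1.divisors.card : ℝ) * (w.2.divisors.card : ℝ) := by push_cast; ring
      _ ≤ T * T := mul_le_mul h2 h3 (Nat.cast_nonneg _) ((Nat.cast_nonneg _).trans h2)
      _ = T ^ 2 := by ring
  have hPc : (P.card : ℝ) ≤ (H * N) * ((H : ℝ) * N / g + 1) := by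
    have h1 : P.card ≤ (H * N) * (H * N / g + 1) := by
      rw [card_eq_sum_card_fiberwise (f := Prod.fst) (t := Icc 1 (H * N))]
      · have h2 : ∀ x ∈ Icc 1 (H * N), (P.filter (fun w => w.1 = x)).card ≤ H * N / g + 1 := by
          intro x hx
          refine le_trans ?_ (class_card (H * N) g x)
          refine card_le_card_of_injOn Prod.snd ?_ ?_
          · intro w hw
            rw [mem_coe, mem_filter, hPd, mem_filter, mem_product] at hw
            rw [mem_coe, mem_filter]
            refine ⟨hw.1.1.2, ?_⟩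
            rw [← hw.2]
            exact hw.1.2
          · intro w hw u hu hwu
            rw [mem_coe, mem_filter] at hw hu
            exact Prod.ext (hw.2.trans hu.2.symm) hwu
        refine (sum_le_sum h2).trans ?_
        simp
      · intro w hw
        rw [mem_coe, hPd, mem_filter, mem_product] at hw
        exact hw.1.1
    have h3 : ((H * N / g : ℕ) : ℝ) ≤ (H : ℝ) * N / g := by
      refine Nat.cast_div_le.trans ?_
      push_cast
      exact le_rfl
    calc (P.card : ℝ) ≤ (((H * N) * (H * N / g + 1) : ℕ) : ℝ) := by exact_mod_cast h1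
      _ = (H * N) * (((H * N / g : ℕ) : ℝ) + 1) := by push_cast; ring
      _ ≤ _ := by gcongr
  rw [card_eq_sum_card_fiberwise (f := f) (t := P) hmap]
  push_cast
  calc ∑ w ∈ P, ((Q.filter (fun v => f v = w)).card : ℝ) ≤ ∑ _w ∈ P, T ^ 2 := sum_le_sum hfib
    _ = T ^ 2 * P.card := by rw [sum_const, nsmul_eq_mul, mul_comm]
    _ ≤ T ^ 2 * ((H * N) * ((H : ℝ) * N / g + 1)) := mul_le_mul_of_nonneg_left hPc (by positivity)
    _ = _ := by ring

end Pool.Agent.Helper30.TW
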