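import Pool.Agent.Helper30.TW.M_QD

/-!
# Project TW, module SQ: large square factors of `a b + 1`
-/

set_option autoImplicit false

noncomputable section

namespace Pool.Agent.Helper30.TW

open Finset
open Pool.Agent.Helper9.TW
open Pool.Agent.Helper15.AB (StDB)

/-- roots of `e x ^ 2 = 1` modulo `a` -/
def rts (a e : ℕ) : Finset ℕ := (range a).filter (fun x : ℕ => (a : ℤ) ∣ (e : ℤ) * x ^ 2 - 1)

theorem root_aux (a : ℕ) (ha : 1 ≤ a) (e x x₀ : ℤ) (h : (a : ℤ) ∣ e * x ^ 2 - 1)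
    (h₀ : (a : ℤ) ∣ e * x₀ ^ 2 - 1) :
    ((a / Int.gcd (x - x₀) a : ℕ) : ℤ) ∣ x + x₀ ∧
      Nat.gcd (Int.gcd (x - x₀) a) (a / Int.gcd (x - x₀) a) ∣ 2 := by
  obtain ⟨k, hk⟩ := h
  obtain ⟨k₀, hk₀⟩ := h₀
  have hcop : IsCoprime (a : ℤ) e := ⟨-k, x ^ 2, by linear_combination hk⟩
  have hcop0 : IsCoprime (a : ℤ) x₀ := ⟨-k₀, e * x₀, by linear_combination hk₀⟩
  have h1 : (a : ℤ) ∣ (x ^ 2 - x₀ ^ 2) * e := ⟨k - k₀, by linear_combination hk - hk₀⟩
  have h2 : (a : ℤ) ∣ x ^ 2 - x₀ ^ 2 := hcop.dvd_of_dvd_mul_right h1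
  set g := Int.gcd (x - x₀) a with hg
  have hg0 : 0 < g := Int.gcd_pos_of_ne_zero_right _ (by omega)
  have hga : g ∣ a := by
    have := Int.gcd_dvd_right (x - x₀) (a : ℤ)
    exact_mod_cast this
  have hgx : (g : ℤ) ∣ x - x₀ := Int.gcd_dvd_left _ _
  have hga' : g * (a / g) = a := Nat.mul_div_cancel' hga
  have h3 : (a : ℤ) ∣ g * (x + x₀) := by
    have h4 := Int.gcd_eq_gcd_ab (x - x₀) (a : ℤ)
    rw [← hg] at h4
    obtain ⟨w, hw⟩ := h2
    refine ⟨w * Int.gcdA (x - x₀) a + Int.gcdB (x - x₀) a * (x + x₀), ?_⟩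
    rw [h4]
    linear_combination (Int.gcdA (x - x₀) a) * hw
  have h5 : ((a / g : ℕ) : ℤ) ∣ x + x₀ := by
    have h6 : ((g : ℤ) * ((a / g : ℕ) : ℤ)) ∣ g * (x + x₀) := by
      have : ((g : ℤ) * ((a / g : ℕ) : ℤ)) = a := by exact_mod_cast hga'
      rw [this]
      exact h3
    exact (mul_dvd_mul_iff_left (by exact_mod_cast hg0.ne')).1 h6
  refine ⟨h5, ?_⟩
  set t := Nat.gcd g (a / g) with ht
  have ht1 : (t : ℤ) ∣ x - x₀ := by
    have h7 : (t : ℤ) ∣ (g : ℤ) := by exact_mod_cast Nat.gcd_dvd_left g (a / g)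
    exact h7.trans hgx
  have ht2 : (t : ℤ) ∣ x + x₀ := by
    have h7 : (t : ℤ) ∣ ((a / g : ℕ) : ℤ) := by exact_mod_cast Nat.gcd_dvd_right g (a / g)
    exact h7.trans h5
  have ht3 : (t : ℤ) ∣ 2 * x₀ := by
    have := dvd_sub ht2 ht1
    have e1 : x + x₀ - (x - x₀) = 2 * x₀ := by ring
    rwa [e1] at this
  have ht4 : (t : ℤ) ∣ (a : ℤ) := by
    have h7 : t ∣ a := (Nat.gcd_dvd_left g (a / g)).trans hga
    exact_mod_cast h7
  have ht5 : IsCoprime (t : ℤ) x₀ := IsCoprime.of_isCoprime_of_dvd_left hcop0 ht4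
  have ht6 : (t : ℤ) ∣ 2 := ht5.dvd_of_dvd_mul_right ht3
  exact_mod_cast ht6

theorem rts_card (a e : ℕ) (ha : 1 ≤ a) : (rts a e).card ≤ 2 * a.divisors.card := by
  classical
  rcases (rts a e).eq_empty_or_nonempty with h | ⟨x₀, hx₀⟩
  · rw [h]; simp
  · have hroot : ∀ x ∈ rts a e, x < a ∧ (a : ℤ) ∣ (e : ℤ) * (x : ℤ) ^ 2 - 1 := by
      intro x hx
      rw [rts, mem_filter, mem_range] at hx
      exact hx
    have h1 : (rts a e).card ≤ (a.divisors ×ˢ (univ : Finset Bool)).card := by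
      refine card_le_card_of_injOn
        (fun x : ℕ => (Int.gcd ((x : ℤ) - x₀) a, decide (2 * x < a))) ?_ ?_
      · intro x hx
        rw [mem_coe] at hx
        rw [mem_coe, mem_product]
        refine ⟨?_, mem_univ _⟩
        rw [Nat.mem_divisors]
        refine ⟨?_, by omega⟩
        have := Int.gcd_dvd_right ((x : ℤ) - x₀) (a : ℤ)
        exact_mod_cast this
      · intro x hx y hy hxy
        rw [mem_coe] at hx hy
        have hx' := hroot x hx
        have hy' := hroot y hy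
        have h0' := hroot x₀ hx₀
        have h2 : (Int.gcd ((x : ℤ) - x₀) a, decide (2 * x < a)) =
          (Int.gcd ((y : ℤ) - x₀) a, decide (2 * y < a)) := hxy
        rw [Prod.mk.injEq] at h2
        obtain ⟨hg, hb⟩ := h2
        have r1 := root_aux a ha e x x₀ hx'.2 h0'.2
        have r2 := root_aux a ha e y x₀ hy'.2 h0'.2
        rw [← hg] at r2
        set g := Int.gcd ((x : ℤ) - x₀) a with hgdef
        have hga : g ∣ a := Int.natCast_dvd_natCast.1 (Int.gcd_dvd_right ((x : ℤ) - x₀) (a : ℤ))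
        have hga' : g * (a / g) = a := Nat.mul_div_cancel' hga
        have d1 : (g : ℤ) ∣ (x : ℤ) - y := by
          have u1 : (g : ℤ) ∣ (x : ℤ) - x₀ := Int.gcd_dvd_left _ _
          have u2 : (g : ℤ) ∣ (y : ℤ) - x₀ := by
            rw [hg]; exact Int.gcd_dvd_left _ _
          have := dvd_sub u1 u2
          have e1 : (x : ℤ) - x₀ - (y - x₀) = x - y := by ring
          rwa [e1] at this
        have d2 : ((a / g : ℕ) : ℤ) ∣ (x : ℤ) - y := by
          have := dvd_sub r1.1 r2.1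
          have e1 : (x : ℤ) + x₀ - (y + x₀) = x - y := by ring
          rwa [e1] at this
        have d3 : Nat.lcm g (a / g) ∣ ((x : ℤ) - y).natAbs :=
          Nat.lcm_dvd (Int.natCast_dvd.1 d1) (Int.natCast_dvd.1 d2)
        have d4 : a ∣ 2 * ((x : ℤ) - y).natAbs := by
          have := mul_dvd_mul r1.2 d3
          rwa [Nat.gcd_mul_lcm, hga'] at this
        have hb' : (2 * x < a) ↔ (2 * y < a) := by
          exact decide_eq_decide.1 hb
        have hlt : 2 * ((x : ℤ) - y).natAbs < a := by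
          have := hx'.1
          have := hy'.1
          omega
        have hz := Nat.eq_zero_of_dvd_of_lt d4 hlt
        omega
    rw [card_product] at h1
    simp only [card_univ, Fintype.card_bool] at h1
    omega

theorem sq_class (a m : ℕ) (ha : 1 ≤ a) (hm : 1 ≤ m) :
    (((Bb a).filter (fun b => m ^ 2 ∣ a * b + 1)).card : ℝ) ≤ a / (m : ℝ) ^ 2 + 1 := by
  classical
  rcases ((Bb a).filter (fun b => m ^ 2 ∣ a * b + 1)).eq_empty_or_nonempty with h | ⟨b₀, hb₀⟩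
  · rw [h]
    simp only [card_empty, Nat.cast_zero]
    positivity
  · rw [mem_filter] at hb₀
    obtain ⟨k₀, hk₀⟩ := hb₀.2
    have hk₀Z : (a : ℤ) * b₀ + 1 = (m : ℤ) ^ 2 * k₀ := by exact_mod_cast hk₀
    have hcop : IsCoprime (((m ^ 2 : ℕ) : ℤ)) (a : ℤ) := by
      refine ⟨k₀, -b₀, ?_⟩
      push_cast
      linear_combination -hk₀Z
    have hsub : (Bb a).filter (fun b => m ^ 2 ∣ a * b + 1) ⊆
        (Icc 1 a).filter (fun y : ℕ => (((m ^ 2 : ℕ) : ℕ) : ℤ) ∣ (b₀ : ℤ) - y) := by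
      intro b hb
      rw [mem_filter, Bb, mem_Ioc] at hb
      rw [mem_filter, mem_Icc]
      refine ⟨⟨by omega, by omega⟩, ?_⟩
      obtain ⟨k, hk⟩ := hb.2
      have hkZ : (a : ℤ) * b + 1 = (m : ℤ) ^ 2 * k := by exact_mod_cast hk
      refine hcop.dvd_of_dvd_mul_right ⟨(k₀ : ℤ) - k, ?_⟩
      push_cast
      linear_combination hk₀Z - hkZ
    have h1 := (card_le_card hsub).trans (class_card a (m ^ 2) b₀)
    have h2 : ((a / m ^ 2 : ℕ) : ℝ) ≤ (a : ℝ) / (m : ℝ) ^ 2 := by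
      refine Nat.cast_div_le.trans ?_
      push_cast
      exact le_rfl
    have h3 : (((Bb a).filter (fun b => m ^ 2 ∣ a * b + 1)).card : ℝ) ≤
        ((a / m ^ 2 : ℕ) : ℝ) + 1 := by exact_mod_cast h1
    linarith

theorem hSQ (hDB : StDB) : StSQ := by
  intro θ ε hθ hθ1 hε
  classical
  obtain ⟨C, hC1, hC⟩ := hDB ε hε
  refine ⟨3 + 2 * C, by linarith, ?_⟩
  intro a ha
  have ha1 : (1 : ℝ) ≤ a := by exact_mod_cast ha
  have ha0 : (0 : ℝ) < a := by linarith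
  set A23 : ℝ := (a : ℝ) ^ (2 / 3 : ℝ) with hA23
  have hA23p : 0 < A23 := Real.rpow_pos_of_pos ha0 _
  set M₀ : ℕ := ⌈(a : ℝ) ^ θ⌉₊ with hM0
  set M₁ : ℕ := ⌊A23⌋₊ with hM1
  have haθ : (1 : ℝ) ≤ (a : ℝ) ^ θ := Real.one_le_rpow ha1 hθ.le
  have hM0r : (a : ℝ) ^ θ ≤ M₀ := Nat.le_ceil _
  have hM01 : 1 ≤ M₀ := by
    have : (0 : ℝ) < M₀ := by linarith
    exact_mod_cast this
  have hsub : Bb a \ B1 a θ ⊆
      ((Icc M₀ M₁).biUnion (fun m => (Bb a).filter (fun b => m ^ 2 ∣ a * b + 1))) ∪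
      ((Icc 1 M₁).biUnion (fun e => (rts a e).image (fun x => (e * x ^ 2 - 1) / a))) := by
    intro b hb
    rw [mem_sdiff] at hb
    obtain ⟨hbB, hb1⟩ := hb
    rw [B1, mem_filter, not_and] at hb1
    have hb2 := hb1 hbB
    push Not at hb2
    obtain ⟨p, hp, hpθ, hpd⟩ := hb2
    have hbB' := hbB
    rw [Bb, mem_Ioc] at hbB'
    have hb0 : 1 ≤ b := by omega
    have ha2 : 2 ≤ a := by omega
    have hab : a * b + 1 ≤ a ^ 2 := by
      have h1 : b + 1 ≤ a := by omega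
      calc a * b + 1 ≤ a * b + a := by omega
        _ = a * (b + 1) := by ring
        _ ≤ a * a := Nat.mul_le_mul_left _ h1
        _ = a ^ 2 := by ring
    rw [mem_union]
    rcases le_or_gt (p : ℝ) A23 with h | h
    · left
      rw [mem_biUnion]
      refine ⟨p, ?_, ?_⟩
      · rw [mem_Icc]
        refine ⟨Nat.ceil_le.2 hpθ, Nat.le_floor h⟩
      · rw [mem_filter]
        exact ⟨hbB, hpd⟩
    · right
      rw [mem_biUnion]
      obtain ⟨e, he⟩ := hpd
      have he0 : 1 ≤ e := by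
        rcases Nat.eq_zero_or_pos e with h0 | h0
        · rw [h0, mul_zero] at he; omega
        · exact h0
      have heR : (a : ℝ) * b + 1 = (p : ℝ) ^ 2 * e := by exact_mod_cast he
      have habR : (a : ℝ) * b + 1 ≤ (a : ℝ) ^ 2 := by exact_mod_cast hab
      have heZ : (a : ℤ) * b + 1 = (p : ℤ) ^ 2 * e := by exact_mod_cast he
      refine ⟨e, ?_, ?_⟩
      · rw [mem_Icc]
        refine ⟨he0, Nat.le_floor ?_⟩
        have h1 : A23 ^ 2 * A23 = (a : ℝ) ^ 2 := by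
          rw [hA23, ← Real.rpow_natCast, ← Real.rpow_mul ha0.le, ← Real.rpow_add ha0]
          norm_num
        have h2 : A23 ^ 2 * e ≤ A23 ^ 2 * A23 := by
          rw [h1]
          calc A23 ^ 2 * (e : ℝ) ≤ (p : ℝ) ^ 2 * e := by gcongr
            _ ≤ _ := by rw [← heR]; exact habR
        exact le_of_mul_le_mul_left h2 (by positivity)
      · rw [mem_image]
        refine ⟨p, ?_, ?_⟩
        · rw [rts, mem_filter, mem_range]
          refine ⟨?_, ⟨b, ?_⟩⟩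
          · by_contra hcon
            rw [not_lt] at hcon
            have hpa : p ≤ a := by
              by_contra hcon2
              rw [not_le] at hcon2
              have h1 : a ^ 2 < p ^ 2 := Nat.pow_lt_pow_left hcon2 (by norm_num)
              have h2 : p ^ 2 * 1 ≤ p ^ 2 * e := Nat.mul_le_mul_left _ he0
              omega
            have hpeq : p = a := le_antisymm hpa hcon
            rw [hpeq] at he
            have h3 : a ∣ a * b + 1 := by rw [he]; exact ⟨a * e, by ring⟩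
            have h4 : a ∣ 1 := (Nat.dvd_add_right (Dvd.intro b rfl)).1 h3
            have h5 := Nat.le_of_dvd (by norm_num) h4
            omega
          · linear_combination -heZ
        · show (e * p ^ 2 - 1) / a = b
          have h1 : e * p ^ 2 = a * b + 1 := by rw [he]; ring
          rw [h1, Nat.add_sub_cancel]
          exact Nat.mul_div_cancel_left b (by omega)
  have h1 : ((Bb a \ B1 a θ).card : ℝ) ≤
      ∑ m ∈ Icc M₀ M₁, (((Bb a).filter (fun b => m ^ 2 ∣ a * b + 1)).card : ℝ) +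
      ∑ e ∈ Icc 1 M₁, ((rts a e).card : ℝ) := by
    have h2 := (card_le_card hsub).trans (card_union_le _ _)
    have h3 : ((Icc M₀ M₁).biUnion
        (fun m => (Bb a).filter (fun b => m ^ 2 ∣ a * b + 1))).card ≤
        ∑ m ∈ Icc M₀ M₁, ((Bb a).filter (fun b => m ^ 2 ∣ a * b + 1)).card := card_biUnion_le
    have h4 : ((Icc 1 M₁).biUnion
        (fun e => (rts a e).image (fun x => (e * x ^ 2 - 1) / a))).card ≤
        ∑ e ∈ Icc 1 M₁, (rts a e).card :=
      card_biUnion_le.trans (sum_le_sum fun e _ => card_image_le)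
    have h5 := h2.trans (Nat.add_le_add h3 h4)
    exact_mod_cast h5
  have hM1r : (M₁ : ℝ) ≤ A23 := Nat.floor_le hA23p.le
  have h2 : ∑ m ∈ Icc M₀ M₁, (((Bb a).filter (fun b => m ^ 2 ∣ a * b + 1)).card : ℝ) ≤
      2 * (a : ℝ) ^ (1 - θ) + A23 := by
    have h3 : ∀ m ∈ Icc M₀ M₁, (((Bb a).filter (fun b => m ^ 2 ∣ a * b + 1)).card : ℝ) ≤
        a * ((m : ℝ) ^ 2)⁻¹ + 1 := by
      intro m hm
      rw [mem_Icc] at hm
      have := sq_class a m ha (by omega)
      rwa [div_eq_mul_inv] at this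
    have h4 : ∑ m ∈ Icc M₀ M₁, ((m : ℝ) ^ 2)⁻¹ ≤ 2 / M₀ := by
      have h5 := sum_Ioo_inv_sq_le (α := ℝ) (M₀ - 1) (M₁ + 1)
      have h6 : Ioo (M₀ - 1) (M₁ + 1) = Icc M₀ M₁ := by
        ext m
        rw [mem_Ioo, mem_Icc]
        omega
      rw [h6, Nat.cast_sub hM01] at h5
      refine h5.trans (le_of_eq ?_)
      push_cast
      ring
    have h7 : ((Icc M₀ M₁).card : ℝ) ≤ A23 := by
      refine le_trans ?_ hM1r
      rw [Nat.card_Icc]
      exact_mod_cast (by omega : M₁ + 1 - M₀ ≤ M₁)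
    have h8 : (a : ℝ) * (2 / M₀) ≤ 2 * (a : ℝ) ^ (1 - θ) := by
      rw [Real.rpow_sub ha0, Real.rpow_one]
      have : (a : ℝ) * (2 / M₀) = 2 * (a / M₀) := by ring
      rw [this]
      gcongr
    calc ∑ m ∈ Icc M₀ M₁, (((Bb a).filter (fun b => m ^ 2 ∣ a * b + 1)).card : ℝ)
        ≤ ∑ m ∈ Icc M₀ M₁, (a * ((m : ℝ) ^ 2)⁻¹ + 1) := sum_le_sum h3
      _ = a * ∑ m ∈ Icc M₀ M₁, ((m : ℝ) ^ 2)⁻¹ + ((Icc M₀ M₁).card : ℝ) := by
          rw [sum_add_distrib, ← mul_sum, sum_const, nsmul_eq_mul, mul_one]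
      _ ≤ a * (2 / M₀) + A23 := add_le_add (mul_le_mul_of_nonneg_left h4 ha0.le) h7
      _ ≤ _ := by linarith
  have h3 : ∑ e ∈ Icc 1 M₁, ((rts a e).card : ℝ) ≤ A23 * (2 * (C * (a : ℝ) ^ ε)) := by
    have h4 : ∀ e ∈ Icc 1 M₁, ((rts a e).card : ℝ) ≤ 2 * (C * (a : ℝ) ^ ε) := by
      intro e _
      have h5 : ((rts a e).card : ℝ) ≤ 2 * (a.divisors.card : ℝ) := by
        exact_mod_cast rts_card a e ha
      have h6 := hC a ha
      linarith
    refine (sum_le_sum h4).trans ?_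
    rw [sum_const, nsmul_eq_mul, Nat.card_Icc]
    have h7 : ((M₁ + 1 - 1 : ℕ) : ℝ) ≤ A23 := by
      rw [Nat.add_sub_cancel]
      exact hM1r
    have h8 : 0 ≤ 2 * (C * (a : ℝ) ^ ε) := by positivity
    exact mul_le_mul_of_nonneg_right h7 h8
  have e1 : (a : ℝ) ^ (1 - θ) ≤ (a : ℝ) ^ (1 - θ + ε) :=
    Real.rpow_le_rpow_of_exponent_le ha1 (by linarith)
  have e2 : A23 ≤ (a : ℝ) ^ (1 - θ + ε) :=
    Real.rpow_le_rpow_of_exponent_le ha1 (by linarith)
  have e3 : A23 * (a : ℝ) ^ ε ≤ (a : ℝ) ^ (1 - θ + ε) := by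
    rw [hA23, ← Real.rpow_add ha0]
    exact Real.rpow_le_rpow_of_exponent_le ha1 (by linarith)
  calc ((Bb a \ B1 a θ).card : ℝ) ≤ 2 * (a : ℝ) ^ (1 - θ) + A23 +
        A23 * (2 * (C * (a : ℝ) ^ ε)) := h1.trans (add_le_add h2 h3)
    _ = 2 * (a : ℝ) ^ (1 - θ) + A23 + 2 * C * (A23 * (a : ℝ) ^ ε) := by ring
    _ ≤ 2 * (a : ℝ) ^ (1 - θ + ε) + (a : ℝ) ^ (1 - θ + ε) +
        2 * C * (a : ℝ) ^ (1 - θ + ε) := by
        have : 0 ≤ 2 * C := by linarith
        gcongr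
    _ = _ := by ring

end Pool.Agent.Helper30.TW
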